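import Mathlib
import Pool.Agent.H42.Pl1

open Pool.Agent.H42.PlDefs

universe u

/-- A primarily Lindelöf, monotonically Sokolov Tychonoff space that is not an `ℝ`-quotient image
of any subset of any `L_Γ ^ ℕ`. -/
theorem Pool.Agent.Results.MP_e3da0c_gt.No.result :
    ∃ (T : Type) (_ : TopologicalSpace T), T35Space T ∧ PrimLindelof T ∧ MonoSokolov T ∧
      ∀ (Γ : Type u) (F : Set (ℕ → LL Γ)) (f : F → T), ¬ RQuotient f :=
  Pool.Agent.H42.Pl1.main
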